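import Pool.Agent.Helper94.TR.Basic

/-!
Project TR (MP_b8862a_ag), block TR3B: type `A`, a root `t` of level two of maximal length, orthogonal to some `ν z`.
-/

set_option linter.unusedSectionVars false
set_option linter.unusedVariables false

namespace TR

open PF PG

variable {E : Type*} [NormedAddCommGroup E] [InnerProductSpace ℝ E] {Φ X : Finset E} {ℓ : E →ₗ[ℝ] ℝ} {p : ℕ}
  {ν : ℕ → E}

/-- The Gram matrix of the top weights of type `A`. -/
structure GA43 (Φ : Finset E) (p : ℕ) (ν : ℕ → E) (l M : ℝ) : Prop where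
  pos : 0 < l
  mem : ∀ i < p, ∀ j < p, i ≠ j → ν i - ν j ∈ Φ
  gram : ∀ i < p, ∀ j < p, (inner ℝ (ν i) (ν j) : ℝ) = if i = j then M + l / 2 else M

theorem GA43.same {l M : ℝ} (G : GA43 Φ p ν l M) {i : ℕ} (hi : i < p) : (inner ℝ (ν i) (ν i) : ℝ) = M + l / 2 := by
  rw [G.gram i hi i hi, if_pos rfl]

theorem GA43.diff {l M : ℝ} (G : GA43 Φ p ν l M) {i j : ℕ} (hi : i < p) (hj : j < p) (h : i ≠ j) :
    (inner ℝ (ν i) (ν j) : ℝ) = M := by
  rw [G.gram i hi j hj, if_neg h]

theorem GA43.norm {l M : ℝ} (G : GA43 Φ p ν l M) {i j : ℕ} (hi : i < p) (hj : j < p) (h : i ≠ j) :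
    (inner ℝ (ν i - ν j) (ν i - ν j) : ℝ) = l := by
  rw [inner_sub_left, inner_sub_right, inner_sub_right, G.same hi, G.same hj, G.diff hi hj h, G.diff hj hi h.symm]
  ring

theorem GA43.co {l M : ℝ} (G : GA43 Φ p ν l M) {i j : ℕ} (hi : i < p) (hj : j < p) (h : i ≠ j) (x : E) :
    PF.co (ν i - ν j) x = 2 * (inner ℝ x (ν i) - inner ℝ x (ν j)) / l := by
  unfold PF.co
  rw [G.norm hi hj h, inner_sub_right]

theorem ga43_of_isA (hp : 3 ≤ p) (hA : IsA Φ p ν) : ∃ l M : ℝ, GA43 Φ p ν l M := by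
  obtain ⟨l, hl, h⟩ := hA
  have hd : ∀ i < p, ∀ j < p, ∀ k < p, i ≠ j → k ≠ i → k ≠ j → (inner ℝ (ν k) (ν i) : ℝ) = inner ℝ (ν k) (ν j) := by
    intro i hi j hj k hk hij hki hkj
    have h1 := (h i hi j hj hij).2.2 k hk
    rw [if_neg hki, if_neg hkj, inner_sub_right] at h1
    linarith
  have h0 : ∀ j < p, j ≠ 0 → (inner ℝ (ν 0) (ν j) : ℝ) = inner ℝ (ν 0) (ν 1) := by
    intro j hj hj0
    by_cases h1 : j = 1
    · rw [h1]
    · exact hd j hj 1 (by omega) 0 (by omega) h1 (Ne.symm hj0) (by norm_num)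
  have h1 : ∀ i < p, ∀ j < p, i ≠ j → (inner ℝ (ν i) (ν j) : ℝ) = inner ℝ (ν 0) (ν 1) := by
    intro i hi j hj hij
    by_cases hi0 : i = 0
    · rw [hi0]
      exact h0 j hj (by omega)
    by_cases hj0 : j = 0
    · rw [hj0, real_inner_comm]
      exact h0 i hi hi0
    · rw [hd j hj 0 (by omega) i hi hj0 hij hi0, real_inner_comm]
      exact h0 i hi hi0
  refine ⟨l, inner ℝ (ν 0) (ν 1), hl, fun i hi j hj hij => (h i hi j hj hij).1, fun i hi j hj => ?_⟩
  by_cases hij : i = j
  · subst hij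
    rw [if_pos rfl]
    obtain ⟨k, hk, hki⟩ : ∃ k < p, k ≠ i := by
      by_cases h2 : i = 0
      · exact ⟨1, by omega, by omega⟩
      · exact ⟨0, by omega, by omega⟩
    have h2 := (h i hi k hk (Ne.symm hki)).2.2 i hi
    rw [if_pos rfl, if_neg (Ne.symm hki), inner_sub_right, h1 i hi k hk (Ne.symm hki)] at h2
    linarith
  · rw [if_neg hij]
    exact h1 i hi j hj hij

section inp

variable (I : Inp Φ X ℓ p ν)
include I

theorem Inp.memX43 {i : ℕ} (hi : i < p) : ν i ∈ X ∧ ℓ (ν i) = 3 / 2 := (I.top (ν i)).2 ⟨i, hi, rfl⟩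

/-- The pair lemma in its final form. -/
theorem Inp.pr43 (hlev : ∀ g ∈ Φ, ℓ g ≤ 2) {b : E} (hb : b ∈ Φ) (hb2 : ℓ b = 2) : ∃ i < p, ∃ j < p, i ≠ j ∧
    ∃ a ∈ Φ, ℓ a = 1 ∧ a + b = ν i + ν j ∧ (inner ℝ a b : ℝ) = 0 ∧ co b (ν i) = 1 ∧ co b (ν j) = 1 := by
  obtain ⟨i, hi, j, hj, hij, a, ha, ha1, hab⟩ := I.pair hlev b hb hb2
  have h1 := I.cf.root_nonneg ha hb hlev (by rw [ha1, hb2]; norm_num) (by rw [ha1, hb2]; norm_num)
  have h2 : 0 ≤ co b a := (inn_nonneg I.cf.rs hb a).1 h1
  have h3 : co b a + 2 = co b (ν i) + co b (ν j) := by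
    rw [← co_self' (I.cf.rs.ne_zero b hb), ← co_add, hab, co_add]
  have hi1 := I.memX43 hi
  have hj1 := I.memX43 hj
  have h4 := I.cf.zero_one hb hi1.1 hb2 (by rw [hi1.2]; norm_num)
  have h5 := I.cf.zero_one hb hj1.1 hb2 (by rw [hj1.2]; norm_num)
  have h6 : co b (ν i) = 1 ∧ co b (ν j) = 1 := by
    rcases h4 with h4 | h4 <;> rcases h5 with h5 | h5
    · rw [h4, h5] at h3; exfalso; linarith
    · rw [h4, h5] at h3; exfalso; linarith
    · rw [h4, h5] at h3; exfalso; linarith
    · exact ⟨h4, h5⟩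
  refine ⟨i, hi, j, hj, hij, a, ha, ha1, hab, ?_, h6.1, h6.2⟩
  rw [h6.1, h6.2] at h3
  exact (inn_eq_zero I.cf.rs hb a).2 (by linarith)

/-- A root which is positive on `a` (constant on the top) and on some top weight has positive level. -/
theorem Inp.claimF43 {a : E} (hc : ∀ x < p, ∀ y < p, (inner ℝ (ν x) a : ℝ) = inner ℝ (ν y) a) {r : E} (hr : r ∈ Φ)
    (h1 : (0 : ℝ) < inner ℝ r a) {x : ℕ} (hx : x < p) (h2 : (0 : ℝ) < inner ℝ (ν x) r) : 1 ≤ ℓ r := by
  obtain ⟨k, hk⟩ := I.cf.int r hr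
  rw [hk]
  by_contra hcon
  push Not at hcon
  have h3 : k ≤ 0 := by
    have : k < 1 := by exact_mod_cast hcon
    omega
  obtain ⟨hxX, hx1⟩ := I.memX43 hx
  have h4 := I.cf.sub_mem hr hxX ((inn_pos I.cf.rs hr (ν x)).1 h2)
  have h5 := I.cf.lev_le h4
  rw [map_sub, hx1, hk] at h5
  have h6 : k = 0 := by
    have : (0 : ℝ) ≤ k := by linarith
    have : 0 ≤ k := by exact_mod_cast this
    omega
  obtain ⟨y, hy, hxy⟩ := (I.top (ν x - r)).1 ⟨h4, by rw [map_sub, hx1, hk, h6]; norm_num⟩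
  have h7 : r = ν x - ν y := by rw [← hxy]; abel
  rw [h7, inner_sub_left, hc x hx y hy, sub_self] at h1
  exact lt_irrefl _ h1

end inp

/-- The data of case (3B1): `P` is a set of indices for which the sums of the vectors `e k = ν k - a / 2` are roots. -/
structure B143 (Φ X : Finset E) (ℓ : E →ₗ[ℝ] ℝ) (p : ℕ) (ν : ℕ → E) (l : ℝ) (a : E) (P : ℕ → Prop) : Prop where
  inp : Inp Φ X ℓ p ν
  lev : ∀ g ∈ Φ, ℓ g ≤ 2
  pos : 0 < l
  memA : a ∈ Φ
  levA : ℓ a = 1
  le : ∀ r ∈ Φ, (inner ℝ r r : ℝ) ≤ l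
  gram : ∀ i < p, ∀ j < p, (inner ℝ (ν i) (ν j) : ℝ) = inner ℝ a a / 4 + if i = j then l / 2 else 0
  na : ∀ i < p, (inner ℝ (ν i) a : ℝ) = inner ℝ a a / 2
  sub : ∀ i < p, ∀ j < p, i ≠ j → ν i - ν j ∈ Φ
  lt : ∀ k, P k → k < p
  plus : ∀ u v, P u → P v → u ≠ v → ν u + ν v - a ∈ Φ

/-- `ν k - a / 2` -/
noncomputable def ev43 (ν : ℕ → E) (a : E) (k : ℕ) : E := ν k - (1 / 2 : ℝ) • a

section b1

variable {l : ℝ} {a : E} {P : ℕ → Prop} (B : B143 Φ X ℓ p ν l a P)
include B

theorem B143.inner_ev {u v : ℕ} (hu : u < p) (hv : v < p) :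
    (inner ℝ (ν v) (ev43 ν a u) : ℝ) = if v = u then l / 2 else 0 := by
  unfold ev43
  rw [inner_sub_right, inner_smul_right, B.gram v hv u hu, B.na v hv]
  ring

theorem B143.inner_a {u : ℕ} (hu : u < p) : (inner ℝ (ev43 ν a u) a : ℝ) = 0 := by
  unfold ev43
  rw [inner_sub_left, inner_smul_left, B.na u hu]
  simp only [conj_trivial]
  ring

theorem B143.gram_ev {u v : ℕ} (hu : u < p) (hv : v < p) :
    (inner ℝ (ev43 ν a u) (ev43 ν a v) : ℝ) = if u = v then l / 2 else 0 := by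
  have h1 := B.inner_ev hv hu
  have h2 := B.inner_a hv
  rw [real_inner_comm] at h2
  conv_lhs => rw [ev43, inner_sub_left, inner_smul_left, h1, h2]
  simp

theorem B143.lev_ev {u : ℕ} (hu : u < p) : ℓ (ev43 ν a u) = 1 := by
  unfold ev43
  rw [map_sub, map_smul, B.levA, (B.inp.memX43 hu).2]
  norm_num

theorem B143.add_mem {u v : ℕ} (hu : P u) (hv : P v) (h : u ≠ v) : ev43 ν a u + ev43 ν a v ∈ Φ := by
  have h1 : ev43 ν a u + ev43 ν a v = ν u + ν v - a := by
    unfold ev43
    module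
  rw [h1]
  exact B.plus u v hu hv h

theorem B143.sub_mem {u v : ℕ} (hu : P u) (hv : P v) (h : u ≠ v) : ev43 ν a u - ev43 ν a v ∈ Φ := by
  have h1 : ev43 ν a u - ev43 ν a v = ν u - ν v := by
    unfold ev43
    module
  rw [h1]
  exact B.sub u (B.lt u hu) v (B.lt v hv) h

theorem B143.co_add {u v : ℕ} (hu : P u) (hv : P v) (h : u ≠ v) (g : E) :
    co (ev43 ν a u + ev43 ν a v) g = 2 * (inner ℝ g (ev43 ν a u) + inner ℝ g (ev43 ν a v)) / l := by
  have h1 : (inner ℝ (ev43 ν a u + ev43 ν a v) (ev43 ν a u + ev43 ν a v) : ℝ) = l := by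
    rw [inner_add_left, inner_add_right, inner_add_right, B.gram_ev (B.lt u hu) (B.lt u hu),
      B.gram_ev (B.lt u hu) (B.lt v hv), B.gram_ev (B.lt v hv) (B.lt u hu), B.gram_ev (B.lt v hv) (B.lt v hv),
      if_pos rfl, if_neg h, if_neg (Ne.symm h), if_pos rfl]
    ring
  unfold co
  rw [h1, inner_add_right]

theorem B143.co_sub {u v : ℕ} (hu : P u) (hv : P v) (h : u ≠ v) (g : E) :
    co (ev43 ν a u - ev43 ν a v) g = 2 * (inner ℝ g (ev43 ν a u) - inner ℝ g (ev43 ν a v)) / l := by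
  have h1 : (inner ℝ (ev43 ν a u - ev43 ν a v) (ev43 ν a u - ev43 ν a v) : ℝ) = l := by
    rw [inner_sub_left, inner_sub_right, inner_sub_right, B.gram_ev (B.lt u hu) (B.lt u hu),
      B.gram_ev (B.lt u hu) (B.lt v hv), B.gram_ev (B.lt v hv) (B.lt u hu), B.gram_ev (B.lt v hv) (B.lt v hv),
      if_pos rfl, if_neg h, if_neg (Ne.symm h), if_pos rfl]
    ring
  unfold co
  rw [h1, inner_sub_right]

/-- the possible values of the pairings -/
theorem B143.vals {g r : E} (hg : g ∈ Φ) (hga : (inner ℝ g a : ℝ) ≠ 0) (hr : r ∈ Φ) (hra : (inner ℝ r a : ℝ) = 0)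
    (hrl : (inner ℝ r r : ℝ) = l) : co r g = -1 ∨ co r g = 0 ∨ co r g = 1 := by
  have h1 := B.inp.cf.five hr hg
  rcases h1 with h1 | h1 | h1 | h1 | h1
  · exfalso
    have h2 := B.inp.cf.eq_of_two (B.inp.cf.neg hr) hg (by rw [PF.co_neg_left, h1]; norm_num)
      (by rw [inner_neg_left, inner_neg_right, neg_neg, hrl]; exact B.le g hg)
    apply hga
    rw [h2, inner_neg_left, hra, neg_zero]
  · exact Or.inl h1
  · exact Or.inr (Or.inl h1)
  · exact Or.inr (Or.inr h1)
  · exfalso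
    have h2 := B.inp.cf.eq_of_two hr hg h1 (by rw [hrl]; exact B.le g hg)
    apply hga
    rw [h2, hra]

theorem B143.sum {u v : ℕ} (hu : P u) (hv : P v) (h : u ≠ v) {g : E} (hg : g ∈ Φ) (hga : (inner ℝ g a : ℝ) ≠ 0) :
    (inner ℝ g (ev43 ν a u) + inner ℝ g (ev43 ν a v) : ℝ) = -(l / 2) ∨
      (inner ℝ g (ev43 ν a u) + inner ℝ g (ev43 ν a v) : ℝ) = 0 ∨
      (inner ℝ g (ev43 ν a u) + inner ℝ g (ev43 ν a v) : ℝ) = l / 2 := by
  have hu' := B.lt u hu
  have hv' := B.lt v hv
  have h0 := B.pos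
  have h1 := B.vals hg hga (B.add_mem hu hv h) (by
    rw [inner_add_left, B.inner_a hu', B.inner_a hv', add_zero]) (by
    rw [inner_add_left, inner_add_right, inner_add_right, B.gram_ev hu' hu', B.gram_ev hu' hv', B.gram_ev hv' hu',
      B.gram_ev hv' hv', if_pos rfl, if_neg h, if_neg (Ne.symm h), if_pos rfl]
    ring)
  rw [B.co_add hu hv h] at h1
  rcases h1 with h1 | h1 | h1
  · left; field_simp at h1; linarith
  · right; left; field_simp at h1; linarith
  · right; right; field_simp at h1; linarith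

theorem B143.dif {u v : ℕ} (hu : P u) (hv : P v) (h : u ≠ v) {g : E} (hg : g ∈ Φ) (hga : (inner ℝ g a : ℝ) ≠ 0) :
    (inner ℝ g (ev43 ν a u) - inner ℝ g (ev43 ν a v) : ℝ) = -(l / 2) ∨
      (inner ℝ g (ev43 ν a u) - inner ℝ g (ev43 ν a v) : ℝ) = 0 ∨
      (inner ℝ g (ev43 ν a u) - inner ℝ g (ev43 ν a v) : ℝ) = l / 2 := by
  have hu' := B.lt u hu
  have hv' := B.lt v hv
  have h0 := B.pos
  have h1 := B.vals hg hga (B.sub_mem hu hv h) (by
    rw [inner_sub_left, B.inner_a hu', B.inner_a hv', sub_zero]) (by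
    rw [inner_sub_left, inner_sub_right, inner_sub_right, B.gram_ev hu' hu', B.gram_ev hu' hv', B.gram_ev hv' hu',
      B.gram_ev hv' hv', if_pos rfl, if_neg h, if_neg (Ne.symm h), if_pos rfl]
    ring)
  rw [B.co_sub hu hv h] at h1
  rcases h1 with h1 | h1 | h1
  · left; field_simp at h1; linarith
  · right; left; field_simp at h1; linarith
  · right; right; field_simp at h1; linarith

theorem B143.claim {r : E} (hr : r ∈ Φ) (h1 : (0 : ℝ) < inner ℝ r a) {x : ℕ} (hx : x < p)
    (h2 : (0 : ℝ) < inner ℝ (ν x) r) : 1 ≤ ℓ r :=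
  B.inp.claimF43 (fun x hx y hy => by rw [B.na x hx, B.na y hy]) hr h1 hx h2

theorem B143.nu {u : ℕ} (hu : u < p) (r : E) : (inner ℝ (ν u) r : ℝ) = inner ℝ r (ev43 ν a u) + inner ℝ r a / 2 := by
  have h1 : ν u = ev43 ν a u + (1 / 2 : ℝ) • a := by
    unfold ev43
    module
  conv_lhs => rw [h1, inner_add_left, inner_smul_left]
  rw [real_inner_comm r (ev43 ν a u), real_inner_comm r a]
  simp only [conj_trivial]
  ring

/-- subtracting `e u + e v` -/
theorem B143.down {u v : ℕ} (hu : P u) (hv : P v) (h : u ≠ v) {g : E} (hg : g ∈ Φ)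
    (h1 : (inner ℝ g (ev43 ν a u) + inner ℝ g (ev43 ν a v) : ℝ) = l / 2) : g - (ev43 ν a u + ev43 ν a v) ∈ Φ := by
  have h0 := B.pos
  have h2 := B.inp.cf.refl (B.add_mem hu hv h) hg
  rw [B.co_add hu hv h, h1] at h2
  have h3 : 2 * (l / 2) / l = 1 := by field_simp
  rwa [h3, one_smul] at h2

theorem B143.up {u v : ℕ} (hu : P u) (hv : P v) (h : u ≠ v) {g : E} (hg : g ∈ Φ)
    (h1 : (inner ℝ g (ev43 ν a u) + inner ℝ g (ev43 ν a v) : ℝ) = -(l / 2)) : g + (ev43 ν a u + ev43 ν a v) ∈ Φ := by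
  have h0 := B.pos
  have h2 := B.inp.cf.refl (B.add_mem hu hv h) hg
  rw [B.co_add hu hv h, h1] at h2
  have h3 : 2 * -(l / 2) / l = -1 := by field_simp
  rw [h3] at h2
  have h4 : g - (-1 : ℝ) • (ev43 ν a u + ev43 ν a v) = g + (ev43 ν a u + ev43 ν a v) := by module
  rwa [h4] at h2

theorem B143.swp {u v : ℕ} (hu : P u) (hv : P v) (h : u ≠ v) {g : E} (hg : g ∈ Φ)
    (h1 : (inner ℝ g (ev43 ν a u) - inner ℝ g (ev43 ν a v) : ℝ) = l / 2) : g - (ev43 ν a u - ev43 ν a v) ∈ Φ := by
  have h0 := B.pos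
  have h2 := B.inp.cf.refl (B.sub_mem hu hv h) hg
  rw [B.co_sub hu hv h, h1] at h2
  have h3 : 2 * (l / 2) / l = 1 := by field_simp
  rwa [h3, one_smul] at h2

/-- the pairings of the new roots -/
theorem B143.sh {u v w : ℕ} (hu : P u) (hv : P v) (hw : P w) (g : E) (c d : ℝ) :
    (inner ℝ (g + (c • ev43 ν a u + d • ev43 ν a v)) (ev43 ν a w) : ℝ) =
      inner ℝ g (ev43 ν a w) + (c * (if u = w then l / 2 else 0) + d * (if v = w then l / 2 else 0)) := by
  rw [inner_add_left, inner_add_left, inner_smul_left, inner_smul_left, B.gram_ev (B.lt u hu) (B.lt w hw),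
    B.gram_ev (B.lt v hv) (B.lt w hw)]
  simp only [conj_trivial]

theorem B143.sha {u v : ℕ} (hu : P u) (hv : P v) (g : E) (c d : ℝ) :
    (inner ℝ (g + (c • ev43 ν a u + d • ev43 ν a v)) a : ℝ) = inner ℝ g a := by
  rw [inner_add_left, inner_add_left, inner_smul_left, inner_smul_left, B.inner_a (B.lt u hu),
    B.inner_a (B.lt v hv)]
  simp

theorem B143.shl {u v : ℕ} (hu : P u) (hv : P v) (g : E) (c d : ℝ) :
    ℓ (g + (c • ev43 ν a u + d • ev43 ν a v)) = ℓ g + (c + d) := by
  rw [map_add, map_add, map_smul, map_smul, B.lev_ev (B.lt u hu), B.lev_ev (B.lt v hv)]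
  simp

theorem B143.i1 {u v : ℕ} (hu : P u) (hv : P v) (h : u ≠ v) {g : E} (hg : g ∈ Φ) (hga : (0 : ℝ) < inner ℝ g a)
    (h1 : (inner ℝ g (ev43 ν a u) : ℝ) = l / 2) (h2 : (inner ℝ g (ev43 ν a v) : ℝ) = 0) : False := by
  have h0 := B.pos
  have g1 := B.down hu hv h hg (by rw [h1, h2, add_zero])
  have e1 : g - (ev43 ν a u + ev43 ν a v) = g + ((-1 : ℝ) • ev43 ν a u + (-1 : ℝ) • ev43 ν a v) := by module
  rw [e1] at g1
  have g2 := B.swp hu hv h g1 (by
    rw [B.sh hu hv hu, B.sh hu hv hv, h1, h2, if_pos rfl, if_pos rfl, if_neg h, if_neg (Ne.symm h)]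
    ring)
  have e2 : g + ((-1 : ℝ) • ev43 ν a u + (-1 : ℝ) • ev43 ν a v) - (ev43 ν a u - ev43 ν a v) =
      g + ((-2 : ℝ) • ev43 ν a u + (0 : ℝ) • ev43 ν a v) := by module
  rw [e2] at g2
  have h3 := B.claim g2 (by rw [B.sha hu hv]; exact hga) (B.lt v hv) (by
    rw [B.nu (B.lt v hv), B.sh hu hv hv, B.sha hu hv, h2, if_neg h, if_pos rfl]
    linarith)
  rw [B.shl hu hv] at h3
  have h4 := B.lev g hg
  linarith

theorem B143.i2 {u v : ℕ} (hu : P u) (hv : P v) (h : u ≠ v) {g : E} (hg : g ∈ Φ) (hga : (0 : ℝ) < inner ℝ g a)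
    (h1 : (inner ℝ g (ev43 ν a u) : ℝ) = -(l / 2)) (h2 : (inner ℝ g (ev43 ν a v) : ℝ) = 0) : False := by
  have h0 := B.pos
  have g1 := B.up hu hv h hg (by rw [h1, h2, add_zero])
  have e1 : g + (ev43 ν a u + ev43 ν a v) = g + ((1 : ℝ) • ev43 ν a u + (1 : ℝ) • ev43 ν a v) := by module
  rw [e1] at g1
  have g2 := B.swp hv hu (Ne.symm h) g1 (by
    rw [B.sh hu hv hu, B.sh hu hv hv, h1, h2, if_pos rfl, if_pos rfl, if_neg h, if_neg (Ne.symm h)]
    ring)
  have e2 : g + ((1 : ℝ) • ev43 ν a u + (1 : ℝ) • ev43 ν a v) - (ev43 ν a v - ev43 ν a u) =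
      g + ((2 : ℝ) • ev43 ν a u + (0 : ℝ) • ev43 ν a v) := by module
  rw [e2] at g2
  have h3 := B.claim hg hga (B.lt v hv) (by
    rw [B.nu (B.lt v hv), h2]
    linarith)
  have h4 := B.lev _ g2
  rw [B.shl hu hv] at h4
  linarith

theorem B143.o3 {u v w : ℕ} (hu : P u) (hv : P v) (hw : P w) (huv : u ≠ v) (huw : u ≠ w) (hvw : v ≠ w) {g : E}
    (hg : g ∈ Φ) (hga : (0 : ℝ) < inner ℝ g a)
    (h1 : (inner ℝ g (ev43 ν a u) : ℝ) = l / 4) (h2 : (inner ℝ g (ev43 ν a v) : ℝ) = l / 4)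
    (h3 : (inner ℝ g (ev43 ν a w) : ℝ) = l / 4) : False := by
  have h0 := B.pos
  have g1 := B.down hu hv huv hg (by rw [h1, h2]; ring)
  have e1 : g - (ev43 ν a u + ev43 ν a v) = g + ((-1 : ℝ) • ev43 ν a u + (-1 : ℝ) • ev43 ν a v) := by module
  rw [e1] at g1
  have h4 := B.claim g1 (by rw [B.sha hu hv]; exact hga) (B.lt w hw) (by
    rw [B.nu (B.lt w hw), B.sh hu hv hw, B.sha hu hv, h3, if_neg huw, if_neg hvw]
    linarith)
  rw [B.shl hu hv] at h4
  have h5 := B.lev g hg
  linarith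

theorem B143.o1 {u v w : ℕ} (hu : P u) (hv : P v) (hw : P w) (huv : u ≠ v) (huw : u ≠ w) (hvw : v ≠ w) {g : E}
    (hg : g ∈ Φ) (hga : (0 : ℝ) < inner ℝ g a)
    (h1 : (inner ℝ g (ev43 ν a u) : ℝ) = l / 4) (h2 : (inner ℝ g (ev43 ν a v) : ℝ) = -(l / 4))
    (h3 : (inner ℝ g (ev43 ν a w) : ℝ) = -(l / 4)) : False := by
  have h0 := B.pos
  have g1 := B.up hv hw hvw hg (by rw [h3, h2]; ring)
  have e1 : g + (ev43 ν a v + ev43 ν a w) = g + ((1 : ℝ) • ev43 ν a v + (1 : ℝ) • ev43 ν a w) := by module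
  rw [e1] at g1
  have h4 := B.claim hg hga (B.lt u hu) (by
    rw [B.nu (B.lt u hu), h1]
    linarith)
  have h5 := B.lev _ g1
  rw [B.shl hv hw] at h5
  linarith

theorem B143.e2 {u v w : ℕ} (hu : P u) (hv : P v) (hw : P w) (huv : u ≠ v) (huw : u ≠ w) (hvw : v ≠ w) {g : E}
    (hg : g ∈ Φ) (hga : (0 : ℝ) < inner ℝ g a)
    (h1 : (inner ℝ g (ev43 ν a u) : ℝ) = l / 4) (h2 : (inner ℝ g (ev43 ν a v) : ℝ) = l / 4)
    (h3 : (inner ℝ g (ev43 ν a w) : ℝ) = -(l / 4)) : False := by
  have h0 := B.pos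
  have hup := B.lt u hu
  have hwp := B.lt w hw
  have g1 := B.down hu hv huv hg (by rw [h1, h2]; ring)
  have e1 : g - (ev43 ν a u + ev43 ν a v) = g + ((-1 : ℝ) • ev43 ν a u + (-1 : ℝ) • ev43 ν a v) := by module
  rw [e1] at g1
  have l1 := B.claim hg hga hup (by
    rw [B.nu hup, h1]
    linarith)
  have l2 := B.lev g hg
  have k1 : (inner ℝ g a : ℝ) / 2 ≤ l / 4 := by
    by_contra hcon
    push Not at hcon
    have h4 := B.claim g1 (by rw [B.sha hu hv]; exact hga) hwp (by
      rw [B.nu hwp, B.sh hu hv hw, B.sha hu hv, h3, if_neg huw, if_neg hvw]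
      linarith)
    rw [B.shl hu hv] at h4
    linarith
  obtain ⟨hwX, hw1⟩ := B.inp.memX43 hwp
  have k2 : (0 : ℝ) ≤ inner ℝ (ν w) g :=
    (inn_nonneg B.inp.cf.rs hg (ν w)).2 (B.inp.cf.nonneg hg hwX (by rw [hw1]; linarith))
  rw [B.nu hwp, h3] at k2
  have k3 : (inner ℝ g a : ℝ) = l / 2 := by linarith
  -- the weight `ν w - a`
  have haa := B.inp.cf.pos B.memA
  have m1 : ν w - a ∈ X := B.inp.cf.sub_mem B.memA hwX
    ((inn_pos B.inp.cf.rs B.memA (ν w)).1 (by rw [B.na w hwp]; linarith))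
  have m2 : (inner ℝ (ν w - a) g : ℝ) < 0 := by
    rw [inner_sub_left, B.nu hwp, h3, real_inner_comm g a, k3]
    linarith
  have m3 := B.inp.cf.add_mem hg m1 ((inn_neg B.inp.cf.rs hg _).1 m2)
  have m4 : ℓ (ν w - a + g) = 1 / 2 + ℓ g := by
    rw [map_add, map_sub, hw1, B.levA]
    norm_num
  have m5 : ℓ (ν w - a + g) = 3 / 2 := by
    have h4 := B.inp.cf.lev_le m3
    rw [m4] at h4 ⊢
    linarith
  obtain ⟨y, hy, hy'⟩ := (B.inp.top _).1 ⟨m3, m5⟩
  have h5 : (inner ℝ (ν w - a + g) (ev43 ν a u) : ℝ) = l / 4 := by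
    rw [inner_add_left, inner_sub_left, B.inner_ev hup hwp, if_neg (Ne.symm huw), h1, real_inner_comm,
      B.inner_a hup]
    ring
  rw [hy', B.inner_ev hup hy] at h5
  split_ifs at h5 <;> linarith

theorem B143.e0 {u v w : ℕ} (hu : P u) (hv : P v) (hw : P w) (huv : u ≠ v) (huw : u ≠ w) (hvw : v ≠ w) {g : E}
    (hg : g ∈ Φ) (hga : (0 : ℝ) < inner ℝ g a)
    (h1 : (inner ℝ g (ev43 ν a u) : ℝ) = -(l / 4)) (h2 : (inner ℝ g (ev43 ν a v) : ℝ) = -(l / 4))
    (h3 : (inner ℝ g (ev43 ν a w) : ℝ) = -(l / 4)) : False := by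
  have g1 := B.up hu hv huv hg (by rw [h1, h2]; ring)
  have e1 : g + (ev43 ν a u + ev43 ν a v) = g + ((1 : ℝ) • ev43 ν a u + (1 : ℝ) • ev43 ν a v) := by module
  rw [e1] at g1
  refine B.e2 hu hv hw huv huw hvw g1 (by rw [B.sha hu hv]; exact hga) ?_ ?_ ?_
  · rw [B.sh hu hv hu, h1, if_pos rfl, if_neg (Ne.symm huv)]
    ring
  · rw [B.sh hu hv hv, h2, if_pos rfl, if_neg huv]
    ring
  · rw [B.sh hu hv hw, h3, if_neg huw, if_neg hvw]
    ring

/-- Case (3B1) is impossible. -/
theorem B143.false {i j k : ℕ} (hi : P i) (hj : P j) (hk : P k) (hij : i ≠ j) (hik : i ≠ k) (hjk : j ≠ k) : False := by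
  have h0 := B.pos
  obtain ⟨g, hg, hga, hgt⟩ := not_all_orth B.inp.cf.rs B.memA (B.add_mem hi hj hij)
  -- the sign of `(g, a)`
  obtain ⟨g, hg, hga, hgt⟩ : ∃ g ∈ Φ, (0 : ℝ) < inner ℝ g a ∧
      (inner ℝ g (ev43 ν a i + ev43 ν a j) : ℝ) ≠ 0 := by
    rcases lt_or_gt_of_ne hga with h1 | h1
    · refine ⟨-g, B.inp.cf.neg hg, ?_, ?_⟩
      · rw [inner_neg_left]; linarith
      · rw [inner_neg_left]
        exact neg_ne_zero.2 hgt
    · exact ⟨g, hg, h1, hgt⟩
  rw [inner_add_right] at hgt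
  have d1 := B.dif hi hj hij hg hga.ne'
  have s1 := B.sum hi hj hij hg hga.ne'
  rcases s1 with s1 | s1 | s1
  · rcases d1 with d1 | d1 | d1
    · exact B.i2 hi hj hij hg hga (by linarith) (by linarith)
    · -- both `-l/4`
      have d2 := B.dif hi hk hik hg hga.ne'
      have s2 := B.sum hi hk hik hg hga.ne'
      have hk4 : (inner ℝ g (ev43 ν a k) : ℝ) = l / 4 ∨ (inner ℝ g (ev43 ν a k) : ℝ) = -(l / 4) := by
        rcases s2 with s2 | s2 | s2
        · right; linarith
        · left; linarith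
        · exfalso
          rcases d2 with d2 | d2 | d2 <;> linarith
      rcases hk4 with hk4 | hk4
      · exact B.o1 hk hi hj (Ne.symm hik) (Ne.symm hjk) hij hg hga hk4 (by linarith) (by linarith)
      · exact B.e0 hi hj hk hij hik hjk hg hga (by linarith) (by linarith) hk4
    · exact B.i2 hj hi (Ne.symm hij) hg hga (by linarith) (by linarith)
  · exact hgt s1
  · rcases d1 with d1 | d1 | d1
    · exact B.i1 hj hi (Ne.symm hij) hg hga (by linarith) (by linarith)
    · have d2 := B.dif hi hk hik hg hga.ne'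
      have s2 := B.sum hi hk hik hg hga.ne'
      have hk4 : (inner ℝ g (ev43 ν a k) : ℝ) = l / 4 ∨ (inner ℝ g (ev43 ν a k) : ℝ) = -(l / 4) := by
        rcases s2 with s2 | s2 | s2
        · exfalso
          rcases d2 with d2 | d2 | d2 <;> linarith
        · right; linarith
        · left; linarith
      rcases hk4 with hk4 | hk4
      · exact B.o3 hi hj hk hij hik hjk hg hga (by linarith) (by linarith) hk4
      · exact B.e2 hi hj hk hij hik hjk hg hga (by linarith) (by linarith) hk4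
    · exact B.i1 hi hj hij hg hga (by linarith) (by linarith)

end b1

section main

variable (I : Inp Φ X ℓ p ν) {l M : ℝ} (G : GA43 Φ p ν l M)
include I G

/-- A root `t` of level two and maximal length which is orthogonal to some top weight `ν z`. -/
theorem Inp.caseB43 (hlev : ∀ g ∈ Φ, ℓ g ≤ 2) {t : E} (ht : t ∈ Φ) (ht2 : ℓ t = 2)
    (hmax : ∀ a ∈ Φ, (inner ℝ a a : ℝ) ≤ inner ℝ t t) {z : ℕ} (hz : z < p) (hz0 : co t (ν z) = 0) :
    (inner ℝ t t : ℝ) = l ∧ M = l / 4 ∧ (∀ k < p, k ≠ z → co t (ν k) = 1) ∧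
    ∃ i < p, ∃ j < p, i ≠ j ∧ i ≠ z ∧ j ≠ z ∧ ∃ a ∈ Φ, ℓ a = 1 ∧ a + t = ν i + ν j ∧ (inner ℝ a a : ℝ) = l ∧
      ∃ m < p, m ≠ i ∧ m ≠ j ∧ m ≠ z := by
  have h0 := G.pos
  have hT := I.cf.pos ht
  obtain ⟨i, hi, j, hj, hij, a, ha, ha1, hat, hort, hci, hcj⟩ := I.pr43 hlev ht ht2
  have hA := I.cf.pos ha
  have hiz : i ≠ z := by rintro rfl; rw [hz0] at hci; norm_num at hci
  have hjz : j ≠ z := by rintro rfl; rw [hz0] at hcj; norm_num at hcj
  -- inner products with `t`
  have it : ∀ k, (inner ℝ (ν k) t : ℝ) = co t (ν k) * inner ℝ t t / 2 := fun k => inn I.cf.rs ht (ν k)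
  have iti : (inner ℝ (ν i) t : ℝ) = inner ℝ t t / 2 := by rw [it, hci, one_mul]
  have itj : (inner ℝ (ν j) t : ℝ) = inner ℝ t t / 2 := by rw [it, hcj, one_mul]
  have itz : (inner ℝ (ν z) t : ℝ) = 0 := by rw [it, hz0]; ring
  have ae : a = ν i + ν j - t := by rw [← hat]; abel
  -- inner products with `a`
  have ia : ∀ k, (inner ℝ (ν k) a : ℝ) = inner ℝ (ν k) (ν i) + inner ℝ (ν k) (ν j) - inner ℝ (ν k) t := by
    intro k
    rw [ae, inner_sub_right, inner_add_right]
  have iai : (inner ℝ (ν i) a : ℝ) = 2 * M + l / 2 - inner ℝ t t / 2 := by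
    rw [ia, G.same hi, G.diff hi hj hij, iti]; ring
  have iaj : (inner ℝ (ν j) a : ℝ) = 2 * M + l / 2 - inner ℝ t t / 2 := by
    rw [ia, G.same hj, G.diff hj hi hij.symm, itj]; ring
  have iaz : (inner ℝ (ν z) a : ℝ) = 2 * M := by
    rw [ia, G.diff hz hi hiz.symm, G.diff hz hj hjz.symm, itz]; ring
  have iaa : (inner ℝ a a : ℝ) = 4 * M + l - inner ℝ t t := by
    conv_lhs => rw [ae, inner_sub_left, inner_add_left, ← ae, iai, iaj, real_inner_comm a t, hort]
    ring
  -- the ratio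
  have hc : co (ν i - ν z) t = inner ℝ t t / l := by
    rw [G.co hi hz hiz, real_inner_comm (ν i) t, iti, real_inner_comm (ν z) t, itz]
    ring
  have hle : l ≤ inner ℝ t t := by
    have := hmax _ (G.mem i hi z hz hiz)
    rwa [G.norm hi hz hiz] at this
  have hc1 : (inner ℝ t t : ℝ) = l ∨ (inner ℝ t t : ℝ) = 2 * l := by
    have h1 := I.cf.five (G.mem i hi z hz hiz) ht
    rw [hc] at h1
    have h2 : (inner ℝ t t : ℝ) = (inner ℝ t t / l) * l := by field_simp
    rcases h1 with h1 | h1 | h1 | h1 | h1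
    · rw [h1] at h2; exfalso; linarith
    · rw [h1] at h2; exfalso; linarith
    · rw [h1] at h2; exfalso; linarith
    · rw [h1] at h2; left; linarith
    · rw [h1] at h2; right; linarith
  have hcaz : co a (ν z) = 4 * M / inner ℝ a a := by
    unfold co
    rw [iaz]
    ring
  rcases hc1 with hc1 | hc1
  swap
  · -- `c = 2` is impossible
    exfalso
    have hTL := I.cf.two_len ht hmax ha
    rw [hc1] at hTL iaa
    have h2 : (inner ℝ a a : ℝ) = l := by
      rcases hTL with h3 | h3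
      · exfalso
        obtain ⟨k, hk⟩ := I.cf.sat.int a ha (ν z) (I.memX43 hz).1
        rw [hcaz, h3] at hk
        have h4 : 4 * M = 3 * l := by linarith
        rw [h4] at hk
        have h5 : 3 * l / (2 * l) = 3 / 2 := by field_simp
        rw [h5] at hk
        have h6 : (3 : ℝ) = 2 * k := by linarith
        have h7 : (3 : ℤ) = 2 * k := by exact_mod_cast h6
        omega
      · linarith
    have h3 : (inner ℝ (a - ν z) (a - ν z) : ℝ) = 0 := by
      rw [inner_sub_left, inner_sub_right, inner_sub_right, h2, real_inner_comm (ν z) a, iaz, G.same hz]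
      linarith
    have h4 : a = ν z := sub_eq_zero.1 (inner_self_eq_zero.1 h3)
    rw [h4, (I.memX43 hz).2] at ha1
    norm_num at ha1
  -- `c = 1`
  rw [hc1] at iaa iai iaj iti itj hmax it
  have hM : M = inner ℝ a a / 4 := by linarith
  have h1le : ∀ r ∈ Φ, (inner ℝ r r : ℝ) ≤ l := hmax
  by_cases hm : ∃ m < p, m ≠ i ∧ m ≠ j ∧ co t (ν m) ≠ 0
  · -- (3B2)
    obtain ⟨m, hmp, hmi, hmj, hm0⟩ := hm
    have hmz : m ≠ z := fun h => hm0 (by rw [h, hz0])
    have hm1 : co t (ν m) = 1 := by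
      rcases I.cf.zero_one ht (I.memX43 hmp).1 ht2 (by rw [(I.memX43 hmp).2]; norm_num) with h | h
      · exact absurd h hm0
      · exact h
    have iam : (inner ℝ (ν m) a : ℝ) = inner ℝ a a / 2 - l / 2 := by
      rw [ia, G.diff hmp hi hmi, G.diff hmp hj hmj, it, hm1]
      linarith
    have hal : (inner ℝ a a : ℝ) = l := by
      have h3 : (0 : ℝ) ≤ inner ℝ (ν m) a := (inn_nonneg I.cf.rs ha (ν m)).2
        (I.cf.nonneg ha (I.memX43 hmp).1 (by rw [(I.memX43 hmp).2, ha1]; norm_num))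
      have h4 := hmax a ha
      linarith
    have hM4 : M = l / 4 := by rw [hM, hal]
    refine ⟨hc1, hM4, ?_, i, hi, j, hj, hij, hiz, hjz, a, ha, ha1, hat, hal, m, hmp, hmi, hmj, hmz⟩
    intro k hk hkz
    rcases I.cf.zero_one ht (I.memX43 hk).1 ht2 (by rw [(I.memX43 hk).2]; norm_num) with h | h
    · exfalso
      have hki : k ≠ i := by rintro rfl; rw [hci] at h; norm_num at h
      have hkj : k ≠ j := by rintro rfl; rw [hcj] at h; norm_num at h
      have hkm : k ≠ m := by rintro rfl; exact hm0 h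
      have itk : (inner ℝ (ν k) t : ℝ) = 0 := by rw [it, h]; ring
      have itm : (inner ℝ (ν m) t : ℝ) = l / 2 := by rw [it, hm1]; ring
      -- `t' = t - (ν m - ν z)`
      have t1 := I.cf.refl (G.mem m hmp z hz hmz) ht
      have t2 : co (ν m - ν z) t = 1 := by
        rw [G.co hmp hz hmz, real_inner_comm (ν m) t, itm, real_inner_comm (ν z) t, itz]
        field_simp
        ring
      rw [t2, one_smul] at t1
      have t3 : ℓ (t - (ν m - ν z)) = 2 := by
        rw [map_sub, map_sub, (I.memX43 hmp).2, (I.memX43 hz).2, ht2]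
        norm_num
      have t4 : (inner ℝ (t - (ν m - ν z)) a : ℝ) = l / 2 := by
        rw [inner_sub_left, inner_sub_left, iam, iaz, real_inner_comm a t, hort, hal, hM4]
        ring
      have t5 := I.cf.rs.sub_mem t1 ha (by rw [t4]; linarith) (by
        intro h3
        rw [h3, ha1] at t3
        norm_num at t3)
      have t6 : (inner ℝ (ν k) (t - (ν m - ν z) - a) : ℝ) = -(l / 2) := by
        rw [inner_sub_right, inner_sub_right, inner_sub_right, itk, G.diff hk hmp hkm, G.diff hk hz hkz, ia,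
          G.diff hk hi hki, G.diff hk hj hkj, itk, hM4]
        ring
      have t7 : (0 : ℝ) ≤ inner ℝ (ν k) (t - (ν m - ν z) - a) := (inn_nonneg I.cf.rs t5 (ν k)).2
        (I.cf.nonneg t5 (I.memX43 hk).1 (by rw [(I.memX43 hk).2, map_sub, t3, ha1]; norm_num))
      rw [t6] at t7
      linarith
    · exact h
  · -- (3B1)
    exfalso
    push Not at hm
    have hgram : ∀ u < p, ∀ v < p, (inner ℝ (ν u) (ν v) : ℝ) = inner ℝ a a / 4 + if u = v then l / 2 else 0 := by
      intro u hu v hv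
      rw [G.gram u hu v hv]
      by_cases h : u = v
      · rw [if_pos h, if_pos h, hM]
      · rw [if_neg h, if_neg h, hM, add_zero]
    have hna : ∀ u < p, (inner ℝ (ν u) a : ℝ) = inner ℝ a a / 2 := by
      intro u hu
      by_cases hui : u = i
      · rw [hui, iai]; linarith
      by_cases huj : u = j
      · rw [huj, iaj]; linarith
      rw [ia, G.diff hu hi hui, G.diff hu hj huj, it, hm u hu hui huj]
      linarith
    have pij : ν i + ν j - a ∈ Φ := by
      have : ν i + ν j - a = t := by rw [← hat]; abel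
      rwa [this]
    have piz : ν i + ν z - a ∈ Φ := by
      have t1 := I.cf.refl (G.mem j hj z hz hjz) ht
      have t2 : co (ν j - ν z) t = 1 := by
        rw [G.co hj hz hjz, real_inner_comm (ν j) t, itj, real_inner_comm (ν z) t, itz]
        field_simp
        ring
      rw [t2, one_smul] at t1
      have : t - (ν j - ν z) = ν i + ν z - a := by rw [ae]; abel
      rwa [this] at t1
    have pjz : ν j + ν z - a ∈ Φ := by
      have t1 := I.cf.refl (G.mem i hi z hz hiz) ht
      have t2 : co (ν i - ν z) t = 1 := by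
        rw [G.co hi hz hiz, real_inner_comm (ν i) t, iti, real_inner_comm (ν z) t, itz]
        field_simp
        ring
      rw [t2, one_smul] at t1
      have : t - (ν i - ν z) = ν j + ν z - a := by rw [ae]; abel
      rwa [this] at t1
    have B : B143 Φ X ℓ p ν l a (fun k => k = i ∨ k = j ∨ k = z) := by
      refine ⟨I, hlev, h0, ha, ha1, h1le, hgram, hna, G.mem, ?_, ?_⟩
      · rintro k (rfl | rfl | rfl) <;> assumption
      · rintro u v (rfl | rfl | rfl) (rfl | rfl | rfl) huv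
        · exact absurd rfl huv
        · exact pij
        · exact piz
        · rw [add_comm]; exact pij
        · exact absurd rfl huv
        · exact pjz
        · rw [add_comm]; exact piz
        · rw [add_comm]; exact pjz
        · exact absurd rfl huv
    exact B.false (Or.inl rfl) (Or.inr (Or.inl rfl)) (Or.inr (Or.inr rfl)) hij hiz hjz

end main

section pairs

variable (I : Inp Φ X ℓ p ν) {l : ℝ} (G : GA43 Φ p ν l (l / 4)) {c : E}
  (nc : ∀ k < p, (inner ℝ (ν k) c : ℝ) = 3 * l / 4) (lc : ℓ c = 7 / 2) (tk : ∀ k < p, c - ν k ∈ Φ)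
include I G nc lc tk

theorem pair_inner43 {U : Finset ℕ} (hU : U ∈ (Finset.range p).powersetCard 2) {k : ℕ} (hk : k < p) :
    (inner ℝ (c - ∑ x ∈ U, ν x) (ν k) : ℝ) = if k ∈ U then -(l / 4) else l / 4 := by
  rw [Finset.mem_powersetCard] at hU
  obtain ⟨hU1, hU2⟩ := hU
  obtain ⟨u, v, huv, rfl⟩ := Finset.card_eq_two.1 hU2
  have hu : u < p := Finset.mem_range.1 (hU1 (by simp))
  have hv : v < p := Finset.mem_range.1 (hU1 (by simp))
  rw [Finset.sum_pair huv, inner_sub_left, inner_add_left, real_inner_comm, nc k hk, G.gram u hu k hk,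
    G.gram v hv k hk]
  by_cases h1 : u = k
  · have h2 : v ≠ k := fun h => huv (h1.trans h.symm)
    rw [if_pos h1, if_neg h2, if_pos (by rw [h1]; simp)]
    ring
  · by_cases h2 : v = k
    · rw [if_neg h1, if_pos h2, if_pos (by rw [h2]; simp)]
      ring
    · have h3 : k ∉ ({u, v} : Finset ℕ) := by
        simp only [Finset.mem_insert, Finset.mem_singleton, not_or]
        exact ⟨fun h => h1 h.symm, fun h => h2 h.symm⟩
      rw [if_neg h1, if_neg h2, if_neg h3]
      ring

theorem pair_mem43 {U : Finset ℕ} (hU : U ∈ (Finset.range p).powersetCard 2) :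
    c - ∑ x ∈ U, ν x ∈ X ∧ ℓ (c - ∑ x ∈ U, ν x) = 1 / 2 := by
  rw [Finset.mem_powersetCard] at hU
  obtain ⟨hU1, hU2⟩ := hU
  obtain ⟨u, v, huv, rfl⟩ := Finset.card_eq_two.1 hU2
  have hu : u < p := Finset.mem_range.1 (hU1 (by simp))
  have hv : v < p := Finset.mem_range.1 (hU1 (by simp))
  have h0 := G.pos
  have h1 : (0 : ℝ) < inner ℝ (ν u) (c - ν v) := by
    rw [inner_sub_right, nc u hu, G.diff hu hv huv]
    linarith
  have h2 := I.cf.sub_mem (tk v hv) (I.memX43 hu).1 ((inn_pos I.cf.rs (tk v hv) (ν u)).1 h1)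
  have h3 := I.cf.sat.neg _ h2
  have h4 : -(ν u - (c - ν v)) = c - (ν u + ν v) := by abel
  rw [h4] at h3
  rw [Finset.sum_pair huv]
  refine ⟨h3, ?_⟩
  rw [map_sub, map_add, lc, (I.memX43 hu).2, (I.memX43 hv).2]
  norm_num

theorem pair_card43 [DecidableEq E] :
    (((Finset.range p).powersetCard 2).image (fun U => c - ∑ x ∈ U, ν x)).card = p.choose 2 := by
  rw [Finset.card_image_of_injOn, Finset.card_powersetCard, Finset.card_range]
  intro U hU V hV hUV
  have h0 := G.pos
  have hU' := hU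
  have hV' := hV
  rw [Finset.mem_coe, Finset.mem_powersetCard] at hU hV
  ext k
  have key : ∀ k < p, (k ∈ U ↔ k ∈ V) := by
    intro k hk
    have h1 := pair_inner43 I G nc lc tk hU' hk
    have h2 := pair_inner43 I G nc lc tk hV' hk
    have h3 : c - ∑ x ∈ U, ν x = c - ∑ x ∈ V, ν x := hUV
    rw [h3, h2] at h1
    by_cases a1 : k ∈ U
    · by_cases a2 : k ∈ V
      · exact ⟨fun _ => a2, fun _ => a1⟩
      · rw [if_pos a1, if_neg a2] at h1
        exfalso; linarith
    · by_cases a2 : k ∈ V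
      · rw [if_neg a1, if_pos a2] at h1
        exfalso; linarith
      · exact ⟨fun h => absurd h a1, fun h => absurd h a2⟩
  constructor
  · intro h
    exact (key k (Finset.mem_range.1 (hU.1 h))).1 h
  · intro h
    exact (key k (Finset.mem_range.1 (hV.1 h))).2 h

end pairs

/-- **Block TR3B.** -/
theorem Inp.tr3b (I : Inp Φ X ℓ p ν) (hA : IsA Φ p ν) (hlev : ∀ g ∈ Φ, ℓ g ≤ 2) {t : E} (ht : t ∈ Φ) (ht2 : ℓ t = 2)
    (hmax : ∀ a ∈ Φ, (inner ℝ a a : ℝ) ≤ inner ℝ t t) {z : ℕ} (hz : z < p) (hz0 : co t (ν z) = 0) :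
    (p = 5 ∧ Final Φ X ℓ 5 ν 4 11) ∨ (p = 7 ∧ Final Φ X ℓ 7 ν 6 21) := by
  classical
  obtain ⟨l, M, G⟩ := ga43_of_isA I.three hA
  have h0 := G.pos
  obtain ⟨htl, hM, hS, i, hi, j, hj, hij, hiz, hjz, a, ha, ha1, hat, hal, m, hm, hmi, hmj, hmz⟩ :=
    I.caseB43 G hlev ht ht2 hmax hz hz0
  subst hM
  -- the vector `c`
  obtain ⟨c, hc⟩ : ∃ c : E, c = t + ν z := ⟨_, rfl⟩
  have nt : ∀ k < p, (inner ℝ (ν k) t : ℝ) = if k = z then 0 else l / 2 := by
    intro k hk
    rw [inn I.cf.rs ht (ν k), htl]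
    by_cases h : k = z
    · rw [if_pos h, h, hz0]; ring
    · rw [if_neg h, hS k hk h]; ring
  have nc : ∀ k < p, (inner ℝ (ν k) c : ℝ) = 3 * l / 4 := by
    intro k hk
    rw [hc, inner_add_right, nt k hk, G.gram k hk z hz]
    by_cases h : k = z
    · rw [if_pos h, if_pos h]; ring
    · rw [if_neg h, if_neg h]; ring
  have tc : (inner ℝ t c : ℝ) = l := by
    rw [hc, inner_add_right, htl, real_inner_comm, nt z hz, if_pos rfl, add_zero]
  have cc : (inner ℝ c c : ℝ) = 7 * l / 4 := by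
    conv_lhs => rw [hc, inner_add_left, ← hc, tc, nc z hz]
    ring
  have lc : ℓ c = 7 / 2 := by
    rw [hc, map_add, ht2, (I.memX43 hz).2]
    norm_num
  have tk : ∀ k < p, c - ν k ∈ Φ := by
    intro k hk
    by_cases h : k = z
    · rw [h, hc, add_sub_cancel_right]; exact ht
    · have t1 := I.cf.refl (G.mem k hk z hz h) ht
      have t2 : co (ν k - ν z) t = 1 := by
        rw [G.co hk hz h, real_inner_comm (ν k) t, nt k hk, if_neg h, real_inner_comm (ν z) t, nt z hz, if_pos rfl]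
        field_simp
        ring
      rw [t2, one_smul] at t1
      have : t - (ν k - ν z) = c - ν k := by rw [hc]; abel
      rwa [this] at t1
  have ltk : ∀ k < p, ℓ (c - ν k) = 2 := by
    intro k hk
    rw [map_sub, lc, (I.memX43 hk).2]
    norm_num
  have ae : a = ν i + ν j + ν z - c := by
    rw [hc]
    have : a = ν i + ν j - t := by rw [← hat]; abel
    rw [this]
    abel
  -- the roots `ν u + ν v + ν w - c`
  have n3 : ∀ u < p, ∀ v < p, ∀ w < p, ∀ k < p, (inner ℝ (ν k) (ν u + ν v + ν w - c) : ℝ) =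
      (l / 2) * ((if k = u then 1 else 0) + (if k = v then 1 else 0) + (if k = w then 1 else 0)) := by
    intro u hu v hv w hw k hk
    rw [inner_sub_right, inner_add_right, inner_add_right, G.gram k hk u hu, G.gram k hk v hv, G.gram k hk w hw,
      nc k hk]
    split_ifs <;> ring
  have mv : ∀ b : E, b ∈ Φ → ∀ u < p, ∀ v < p, u ≠ v → (inner ℝ (ν u) b : ℝ) = l / 2 → (inner ℝ (ν v) b : ℝ) = 0 →
      b - (ν u - ν v) ∈ Φ := by
    intro b hb u hu v hv huv h1 h2
    have t1 := I.cf.refl (G.mem u hu v hv huv) hb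
    have t2 : co (ν u - ν v) b = 1 := by
      rw [G.co hu hv huv, real_inner_comm (ν u) b, h1, real_inner_comm (ν v) b, h2]
      field_simp
      ring
    rwa [t2, one_smul] at t1
  have ca : (inner ℝ c a : ℝ) = l / 2 := by
    rw [ae, inner_sub_right, inner_add_right, inner_add_right, cc, real_inner_comm, nc i hi, real_inner_comm, nc j hj,
      real_inner_comm, nc z hz]
    ring
  have hTL : ∀ b ∈ Φ, (inner ℝ b b : ℝ) = l ∨ (inner ℝ b b : ℝ) = l / 2 := by
    intro b hb
    have := I.cf.two_len ht hmax hb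
    rwa [htl] at this
  -- `5 ≤ p`
  have hp4 : 4 ≤ p := by
    have h1 : ({i, j, z, m} : Finset ℕ) ⊆ Finset.range p := by
      intro x hx
      simp only [Finset.mem_insert, Finset.mem_singleton] at hx
      rw [Finset.mem_range]
      rcases hx with rfl | rfl | rfl | rfl <;> assumption
    have h2 := Finset.card_le_card h1
    rw [Finset.card_range, Finset.card_insert_of_notMem, Finset.card_insert_of_notMem, Finset.card_pair] at h2
    · exact h2
    · exact hmz.symm
    · simp only [Finset.mem_insert, Finset.mem_singleton, not_or]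
      exact ⟨hjz, hmj.symm⟩
    · simp only [Finset.mem_insert, Finset.mem_singleton, not_or]
      exact ⟨hij, hiz, hmi.symm⟩
  have hp5 : 5 ≤ p := by
    rcases Nat.lt_or_ge 4 p with h | h
    · exact h
    · exfalso
      have : p = 4 := le_antisymm h hp4
      have hpr := I.prime
      rw [this] at hpr
      revert hpr
      norm_num
  have hgram : ∀ u < p, ∀ v < p, (inner ℝ (ν u) (ν v) : ℝ) = if u = v then 3 * l / 4 else l / 4 := by
    intro u hu v hv
    rw [G.gram u hu v hv]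
    split_ifs <;> ring
  have hScard : ((Finset.range p).erase z).card = p - 1 := by
    rw [Finset.card_erase_of_mem (Finset.mem_range.2 hz), Finset.card_range]
  have hSin : ∀ k ∈ (Finset.range p).erase z, k < p := fun k hk => Finset.mem_range.1 (Finset.mem_of_mem_erase hk)
  have hSt : ∀ k < p, (inner ℝ (ν k) t : ℝ) = if k ∈ (Finset.range p).erase z then l / 2 else (0 : ℝ) := by
    intro k hk
    rw [nt k hk]
    by_cases h : k = z
    · rw [if_pos h, if_neg (by rw [h]; simp)]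
    · rw [if_neg h, if_pos (Finset.mem_erase.2 ⟨h, Finset.mem_range.2 hk⟩)]
  by_cases hp : p = 5
  · -- `p = 5`
    left
    refine ⟨hp, ?_⟩
    obtain ⟨m', hm', hmem'⟩ : ∃ m' ∈ Finset.range p, m' ∉ ({i, j, z, m} : Finset ℕ) := by
      apply Finset.exists_mem_notMem_of_card_lt_card
      refine lt_of_le_of_lt Finset.card_le_four ?_
      rw [Finset.card_range]
      omega
    rw [Finset.mem_range] at hm'
    simp only [Finset.mem_insert, Finset.mem_singleton, not_or] at hmem'
    obtain ⟨m'i, m'j, m'z, m'm⟩ := hmem'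
    -- the root `g = c - ν m - a`
    have tma : (inner ℝ (c - ν m) a : ℝ) = l / 2 := by
      rw [inner_sub_left, ca]
      conv_lhs => rw [ae]
      rw [n3 i hi j hj z hz m hm, if_neg hmi, if_neg hmj, if_neg hmz]
      ring
    have gm := I.cf.rs.sub_mem (tk m hm) ha (by rw [tma]; linarith) (by
      intro h
      have := ltk m hm
      rw [h, ha1] at this
      norm_num at this)
    have gi : ∀ k < p, (inner ℝ (ν k) (c - ν m - a) : ℝ) = 3 * l / 4 - (if k = m then 3 * l / 4 else l / 4) -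
        (l / 2) * ((if k = i then 1 else 0) + (if k = j then 1 else 0) + (if k = z then 1 else 0)) := by
      intro k hk
      rw [inner_sub_right, inner_sub_right, nc k hk, hgram k hk m hm]
      conv_lhs => rw [ae]
      rw [n3 i hi j hj z hz k hk]
    have gm' : (inner ℝ (ν m') (c - ν m - a) : ℝ) = l / 2 := by
      rw [gi m' hm', if_neg m'm, if_neg m'i, if_neg m'j, if_neg m'z]
      ring
    have x1 := I.cf.sub_mem gm (I.memX43 hm').1 ((inn_pos I.cf.rs gm _).1 (by rw [gm']; linarith))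
    have x2 : ℓ (ν m' - (c - ν m - a)) = 1 / 2 := by
      rw [map_sub, map_sub, ltk m hm, ha1, (I.memX43 hm').2]
      norm_num
    have hall : ∀ k < p, k = i ∨ k = j ∨ k = z ∨ k = m ∨ k = m' := by
      have h1 : ({i, j, z, m, m'} : Finset ℕ) = Finset.range p := by
        apply Finset.eq_of_subset_of_card_le
        · intro x hx
          simp only [Finset.mem_insert, Finset.mem_singleton] at hx
          rw [Finset.mem_range]
          rcases hx with rfl | rfl | rfl | rfl | rfl <;> assumption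
        · rw [Finset.card_range, Finset.card_insert_of_notMem, Finset.card_insert_of_notMem,
            Finset.card_insert_of_notMem, Finset.card_pair, hp]
          · exact Ne.symm m'm
          · simp only [Finset.mem_insert, Finset.mem_singleton, not_or]
            exact ⟨hmz.symm, Ne.symm m'z⟩
          · simp only [Finset.mem_insert, Finset.mem_singleton, not_or]
            exact ⟨hjz, hmj.symm, Ne.symm m'j⟩
          · simp only [Finset.mem_insert, Finset.mem_singleton, not_or]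
            exact ⟨hij, hiz, hmi.symm, Ne.symm m'i⟩
      intro k hk
      have h2 : k ∈ ({i, j, z, m, m'} : Finset ℕ) := by rw [h1]; exact Finset.mem_range.2 hk
      simpa only [Finset.mem_insert, Finset.mem_singleton] using h2
    have x3 : ∀ k < p, (inner ℝ (ν m' - (c - ν m - a)) (ν k) : ℝ) = l / 4 := by
      intro k hk
      rw [inner_sub_left, real_inner_comm (ν k) (c - ν m - a), gi k hk, hgram m' hm' k hk]
      rcases hall k hk with h | h | h | h | h
      · rw [if_neg (by rw [h]; exact m'i), if_neg (by rw [h]; exact hmi.symm), if_pos h, if_neg (by rw [h]; exact hij),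
          if_neg (by rw [h]; exact hiz)]
        ring
      · rw [if_neg (by rw [h]; exact m'j), if_neg (by rw [h]; exact hmj.symm), if_neg (by rw [h]; exact hij.symm),
          if_pos h, if_neg (by rw [h]; exact hjz)]
        ring
      · rw [if_neg (by rw [h]; exact m'z), if_neg (by rw [h]; exact hmz.symm), if_neg (by rw [h]; exact hiz.symm),
          if_neg (by rw [h]; exact hjz.symm), if_pos h]
        ring
      · rw [if_neg (by rw [h]; exact m'm), if_pos h, if_neg (by rw [h]; exact hmi), if_neg (by rw [h]; exact hmj),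
          if_neg (by rw [h]; exact hmz)]
        ring
      · rw [if_pos h.symm, if_neg (by rw [h]; exact m'm), if_neg (by rw [h]; exact m'i),
          if_neg (by rw [h]; exact m'j), if_neg (by rw [h]; exact m'z)]
        ring
    have hnot : ν m' - (c - ν m - a) ∉ ((Finset.range p).powersetCard 2).image (fun U => c - ∑ x ∈ U, ν x) := by
      intro h
      obtain ⟨U, hU, hU'⟩ := Finset.mem_image.1 h
      have hUc := Finset.mem_powersetCard.1 hU
      obtain ⟨k, hk⟩ : U.Nonempty := Finset.card_pos.1 (by rw [hUc.2]; norm_num)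
      have hkp := Finset.mem_range.1 (hUc.1 hk)
      have h1 := pair_inner43 I G nc lc tk hU hkp
      rw [if_pos hk] at h1
      have h2 := x3 k hkp
      have h3 : c - ∑ x ∈ U, ν x = ν m' - (c - ν m - a) := hU'
      rw [h3, h2] at h1
      linarith
    refine ⟨by norm_num, l, t, (Finset.range p).erase z, insert (ν m' - (c - ν m - a))
      (((Finset.range p).powersetCard 2).image (fun U => c - ∑ x ∈ U, ν x)), h0, ht, ht2, htl, hTL, ?_, ?_, ?_, ?_, ?_, ?_⟩
    · rw [← hp]; exact hgram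
    · rw [← hp]; exact hSin
    · rw [hScard, hp]
    · rw [← hp]; exact hSt
    · intro y hy
      rw [Finset.mem_insert] at hy
      rcases hy with rfl | hy
      · exact ⟨x1, x2, fun k hk => Or.inl (x3 k (by rw [hp]; exact hk))⟩
      · obtain ⟨U, hU, rfl⟩ := Finset.mem_image.1 hy
        obtain ⟨y1, y2⟩ := pair_mem43 I G nc lc tk hU
        refine ⟨y1, y2, fun k hk => ?_⟩
        have h1 := pair_inner43 I G nc lc tk hU (k := k) (by rw [hp]; exact hk)
        by_cases hkU : k ∈ U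
        · right; rw [h1, if_pos hkU]
        · left; rw [h1, if_neg hkU]
    · rw [Finset.card_insert_of_notMem hnot, pair_card43 I G nc lc tk, hp]
      decide
  · -- `p = 7`
    right
    have hp7 : 7 ≤ p := by
      have hpr := I.prime
      rcases Nat.lt_or_ge 6 p with h | h
      · exact h
      · exfalso
        have : p = 6 := by omega
        rw [this] at hpr
        revert hpr
        norm_num
    obtain ⟨x, hx, y, hy, w, hw, hxy, hxw, hyw⟩ := Finset.two_lt_card.1 (show 2 < (Finset.range p \ {i, j, z}).card by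
      have h1 := Finset.le_card_sdiff ({i, j, z} : Finset ℕ) (Finset.range p)
      have h2 : ({i, j, z} : Finset ℕ).card ≤ 3 := Finset.card_le_three
      rw [Finset.card_range] at h1
      omega)
    simp only [Finset.mem_sdiff, Finset.mem_range, Finset.mem_insert, Finset.mem_singleton, not_or] at hx hy hw
    obtain ⟨hx, xi, xj, xz⟩ := hx
    obtain ⟨hy, yi, yj, yz⟩ := hy
    obtain ⟨hw, wi, wj, wz⟩ := hw
    -- the second root
    have a1 : ν x + ν j + ν z - c ∈ Φ := by
      have h1 := mv a ha i hi x hx (Ne.symm xi) (by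
        rw [ae, n3 i hi j hj z hz i hi, if_pos rfl, if_neg hij, if_neg hiz]; ring) (by
        rw [ae, n3 i hi j hj z hz x hx, if_neg xi, if_neg xj, if_neg xz]; ring)
      have h2 : a - (ν i - ν x) = ν x + ν j + ν z - c := by rw [ae]; abel
      rwa [h2] at h1
    have a2 : ν x + ν y + ν z - c ∈ Φ := by
      have h1 := mv _ a1 j hj y hy (Ne.symm yj) (by
        rw [n3 x hx j hj z hz j hj, if_pos rfl, if_neg (Ne.symm xj), if_neg hjz]; ring) (by
        rw [n3 x hx j hj z hz y hy, if_neg (Ne.symm hxy), if_neg yj, if_neg yz]; ring)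
      have h2 : ν x + ν j + ν z - c - (ν j - ν y) = ν x + ν y + ν z - c := by abel
      rwa [h2] at h1
    have a3 : ν x + ν y + ν w - c ∈ Φ := by
      have h1 := mv _ a2 z hz w hw (Ne.symm wz) (by
        rw [n3 x hx y hy z hz z hz, if_pos rfl, if_neg (Ne.symm xz), if_neg (Ne.symm yz)]; ring) (by
        rw [n3 x hx y hy z hz w hw, if_neg (Ne.symm hxw), if_neg (Ne.symm hyw), if_neg wz]; ring)
      have h2 : ν x + ν y + ν z - c - (ν z - ν w) = ν x + ν y + ν w - c := by abel
      rwa [h2] at h1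
    obtain ⟨a', ha'⟩ : ∃ a' : E, a' = ν x + ν y + ν w - c := ⟨_, rfl⟩
    rw [← ha'] at a3
    have la' : ℓ a' = 1 := by
      rw [ha', map_sub, map_add, map_add, lc, (I.memX43 hx).2, (I.memX43 hy).2, (I.memX43 hw).2]
      norm_num
    have ca' : (inner ℝ c a' : ℝ) = l / 2 := by
      rw [ha', inner_sub_right, inner_add_right, inner_add_right, cc, real_inner_comm, nc x hx, real_inner_comm,
        nc y hy, real_inner_comm, nc w hw]
      ring
    have na' : ∀ k < p, (inner ℝ (ν k) a' : ℝ) =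
        (l / 2) * ((if k = x then 1 else 0) + (if k = y then 1 else 0) + (if k = w then 1 else 0)) := by
      intro k hk
      rw [ha', n3 x hx y hy w hw k hk]
    have na : ∀ k < p, (inner ℝ (ν k) a : ℝ) =
        (l / 2) * ((if k = i then 1 else 0) + (if k = j then 1 else 0) + (if k = z then 1 else 0)) := by
      intro k hk
      conv_lhs => rw [ae]
      rw [n3 i hi j hj z hz k hk]
    have aa' : (inner ℝ a a' : ℝ) = -(l / 2) := by
      conv_lhs => rw [ae]
      rw [inner_sub_left, inner_add_left, inner_add_left, na' i hi, na' j hj, na' z hz, ca',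
        if_neg (Ne.symm xi), if_neg (Ne.symm yi), if_neg (Ne.symm wi), if_neg (Ne.symm xj), if_neg (Ne.symm yj),
        if_neg (Ne.symm wj), if_neg (Ne.symm xz), if_neg (Ne.symm yz), if_neg (Ne.symm wz)]
      ring
    have a'a' : (inner ℝ a' a' : ℝ) = l := by
      conv_lhs => rw [ha', inner_sub_left, inner_add_left, inner_add_left, ← ha']
      rw [na' x hx, na' y hy, na' w hw, ca', if_pos rfl, if_neg hxy, if_neg hxw, if_neg (Ne.symm hxy), if_pos rfl,
        if_neg hyw, if_neg (Ne.symm hxw), if_neg (Ne.symm hyw), if_pos rfl]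
      ring
    have hb := I.cf.rs.add_mem ha a3 (by rw [aa']; linarith) (by
      intro h
      rw [h, map_neg, la'] at ha1
      norm_num at ha1)
    have hb2 : ℓ (a + a') = 2 := by rw [map_add, ha1, la']; norm_num
    have hbb : (inner ℝ (a + a') (a + a') : ℝ) = l := by
      rw [inner_add_left, inner_add_right, inner_add_right, hal, a'a', real_inner_comm a a', aa']
      ring
    have nb : ∀ k < p, (inner ℝ (ν k) (a + a') : ℝ) =
        (l / 2) * ((if k = i then 1 else 0) + (if k = j then 1 else 0) + (if k = z then 1 else 0)) +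
        (l / 2) * ((if k = x then 1 else 0) + (if k = y then 1 else 0) + (if k = w then 1 else 0)) := by
      intro k hk
      rw [inner_add_right, na k hk, na' k hk]
    have zero : ∀ k < p, k ∉ ({i, j, z, x, y, w} : Finset ℕ) → co (a + a') (ν k) = 0 := by
      intro k hk hk'
      simp only [Finset.mem_insert, Finset.mem_singleton, not_or] at hk'
      obtain ⟨k1, k2, k3, k4, k5, k6⟩ := hk'
      apply (inn_eq_zero I.cf.rs hb (ν k)).1
      rw [nb k hk, if_neg k1, if_neg k2, if_neg k3, if_neg k4, if_neg k5, if_neg k6]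
      ring
    obtain ⟨z', hz', hz'm⟩ : ∃ z' ∈ Finset.range p, z' ∉ ({i, j, z, x, y, w} : Finset ℕ) := by
      apply Finset.exists_mem_notMem_of_card_lt_card
      refine lt_of_le_of_lt Finset.card_le_six ?_
      rw [Finset.card_range]
      omega
    rw [Finset.mem_range] at hz'
    obtain ⟨-, -, hS', -⟩ := I.caseB43 G hlev hb hb2 (by rw [hbb, ← htl]; exact hmax) hz' (zero z' hz' hz'm)
    have hp : p = 7 := by
      have h1 : Finset.range p ⊆ insert z' ({i, j, z, x, y, w} : Finset ℕ) := by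
        intro k hk
        rw [Finset.mem_range] at hk
        by_contra hcon
        rw [Finset.mem_insert, not_or] at hcon
        have h2 := hS' k hk hcon.1
        rw [zero k hk hcon.2] at h2
        norm_num at h2
      have h2 := Finset.card_le_card h1
      rw [Finset.card_range] at h2
      have h3 := Finset.card_insert_le z' ({i, j, z, x, y, w} : Finset ℕ)
      have h4 : ({i, j, z, x, y, w} : Finset ℕ).card ≤ 6 := Finset.card_le_six
      omega
    refine ⟨hp, by norm_num, l, t, (Finset.range p).erase z,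
      ((Finset.range p).powersetCard 2).image (fun U => c - ∑ x ∈ U, ν x), h0, ht, ht2, htl, hTL, ?_, ?_, ?_, ?_, ?_, ?_⟩
    · rw [← hp]; exact hgram
    · rw [← hp]; exact hSin
    · rw [hScard, hp]
    · rw [← hp]; exact hSt
    · intro y hy
      obtain ⟨U, hU, rfl⟩ := Finset.mem_image.1 hy
      obtain ⟨y1, y2⟩ := pair_mem43 I G nc lc tk hU
      refine ⟨y1, y2, fun k hk => ?_⟩
      have h1 := pair_inner43 I G nc lc tk hU (k := k) (by rw [hp]; exact hk)
      by_cases hkU : k ∈ U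
      · right; rw [h1, if_pos hkU]
      · left; rw [h1, if_neg hkU]
    · rw [pair_card43 I G nc lc tk, hp]
      decide

end TR
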